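import Pool.Agent.Lib.MP_7c801b_nt.Family

open Matrix Filter Topology Pool.Agent.Lib.MP_7c801b_nt

namespace Pool.Agent.Results.MP_7c801b_nt.NRSFinite

theorem trace_eq (M : Matrix (Fin 3) (Fin 3) ℤ) : M.trace = pp M := by
  simp [Matrix.trace, Fin.sum_univ_three, pp]

theorem trace_inv_eq (M : Matrix (Fin 3) (Fin 3) ℤ) (h : M.det = 1) : M⁻¹.trace = qq M := by
  rw [Matrix.inv_def, h, Ring.inverse_one, one_smul, Matrix.adjugate_fin_three]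
  simp [Matrix.trace, Fin.sum_univ_three, qq]
  ring

/-- Only finitely many NRS matrices of a given Hessenberg type are `ς`-nonreduced: the trace and
the trace of the inverse of a `ς`-nonreduced NRS perfect Hessenberg matrix are bounded by a
polynomial in its complexity. Hence for every type the proportion of `ς`-reduced matrices among
the NRS matrices `H(m, n)` with `|m|, |n| ≤ N` tends to `1`. -/
theorem result :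
    (∀ M : Matrix (Fin 3) (Fin 3) ℤ, IsPerfect M → IsNRS M → IsNonreduced M →
      |M.trace| < 4000000 * complexity M ^ 12 ∧ |M⁻¹.trace| < 4000000 * complexity M ^ 12) ∧
    ∀ a₁₁ a₂₁ a₁₂ a₂₂ a₃₂ a₁₃ a₂₃ a₃₃ : ℤ,
      IsPerfect (H a₁₁ a₂₁ a₁₂ a₂₂ a₃₂ a₁₃ a₂₃ a₃₃ 0 0) →
      {x : ℤ × ℤ | IsNRS (H a₁₁ a₂₁ a₁₂ a₂₂ a₃₂ a₁₃ a₂₃ a₃₃ x.1 x.2) ∧
        IsNonreduced (H a₁₁ a₂₁ a₁₂ a₂₂ a₃₂ a₁₃ a₂₃ a₃₃ x.1 x.2)}.Finite ∧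
      Tendsto (fun N : ℕ =>
        ({x : ℤ × ℤ | |x.1| ≤ N ∧ |x.2| ≤ N ∧
          IsNRS (H a₁₁ a₂₁ a₁₂ a₂₂ a₃₂ a₁₃ a₂₃ a₃₃ x.1 x.2) ∧
          ¬ IsNonreduced (H a₁₁ a₂₁ a₁₂ a₂₂ a₃₂ a₁₃ a₂₃ a₃₃ x.1 x.2)}.ncard : ℝ) /
        {x : ℤ × ℤ | |x.1| ≤ N ∧ |x.2| ≤ N ∧
          IsNRS (H a₁₁ a₂₁ a₁₂ a₂₂ a₃₂ a₁₃ a₂₃ a₃₃ x.1 x.2)}.ncard) atTop (𝓝 1) := by
  refine ⟨?_, ?_⟩
  · rintro M ⟨hdet, h20, h00, h10, h01, h21, -, -⟩ hN hn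
    have h10' : 0 < M 1 0 := lt_of_le_of_lt h00 h10
    have h21' : 0 < M 2 1 := lt_of_le_of_lt h01 h21
    have h := nonred_bound M hdet h20 h10' h21' hN hn
    have hc : complexity M = M 1 0 ^ 2 * M 2 1 := by
      unfold complexity
      rw [abs_of_pos h10', abs_of_pos h21']
    have e : (2000 * (M 1 0 ^ 2 * M 2 1) ^ 6) ^ 2 = 4000000 * complexity M ^ 12 := by
      rw [hc]; ring
    rw [e] at h
    rw [trace_eq, trace_inv_eq M hdet]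
    exact h
  · intro a₁₁ a₂₁ a₁₂ a₂₂ a₃₂ a₁₃ a₂₃ a₃₃ hp
    obtain ⟨hdet, -, h1, h2, h3, h4, -, -⟩ := hp
    simp only [H, of_apply, cons_val', cons_val_zero, cons_val_one, cons_val] at h1 h2 h3 h4
    have hfin := finite_bad a₁₁ a₂₁ a₁₂ a₂₂ a₃₂ a₁₃ a₂₃ a₃₃ h1 h2 h3 h4 hdet
    refine ⟨hfin, ?_⟩
    exact ratio_tendsto (fun x => IsNRS (H a₁₁ a₂₁ a₁₂ a₂₂ a₃₂ a₁₃ a₂₃ a₃₃ x.1 x.2))
      (fun x => IsNonreduced (H a₁₁ a₂₁ a₁₂ a₂₂ a₃₂ a₁₃ a₂₃ a₃₃ x.1 x.2)) hfin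
      (infinite_NRS a₁₁ a₂₁ a₁₂ a₂₂ a₃₂ a₁₃ a₂₃ a₃₃ (lt_of_le_of_lt h1 h2)
        (lt_of_le_of_lt h3 h4) hdet)

end Pool.Agent.Results.MP_7c801b_nt.NRSFinite
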